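import Pool.Agent.N974.RQ.Even
import Pool.Agent.N973.P15.C1A
import Pool.Agent.N974.PG.GnE
import Pool.Agent.N969.RQ.Defs3

/-!
# RQ: the dual sums as divisor sums (`C1D`, `C1Dr`)
-/

set_option autoImplicit false

namespace Pool.Agent.N974.RQ

open Finset
open Pool.Agent.N969.P15 (un psp psp2 c2)
open Pool.Agent.N969.P17G (gen psl chP)
open Pool.Agent.N969.RQ (Fd Fl Flr wd WD WDr S_C1D S_C1Dr)
open Pool.Agent.N973.P15.C (inj_gen exists_fac sign_of fo)
open Pool.Agent.N402.P15 (gen_C1B)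
open Pool.Agent.N974.Gen

noncomputable section

/-! ### the data -/

section data

variable (P Q : ℕ → Prop) [DecidablePred P] [DecidablePred Q]

/-- the factorizations `(a x + c y) (a' x + c' y)` of determinant `d` -/
def FF (d x n : ℤ) : Set (ℤ × ℤ × ℤ × ℤ) :=
  {t | 0 < t.1 ∧ 0 < t.2.1 ∧ (P t.1.toNat ∧ Q t.2.1.toNat) ∧
    t.1 * t.2.2.2 - t.2.1 * t.2.2.1 = d ∧ 0 < -(t.1 * x + t.2.2.1 * n) ∧
    0 < t.2.1 * x + t.2.2.2 * n}

/-- the set of factorization data -/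
def Om (N : ℕ) : Finset (Σ _ : ℕ, ℕ × ℕ) :=
  (range N).sigma fun T => ((N - T).divisors.filter P) ×ˢ (T.divisors.filter Q)

/-- the condition on the cusp -/
def Cd (n N : ℕ) (x : ℤ) (w : Σ _ : ℕ, ℕ × ℕ) : Prop :=
  (n : ℤ) ∣ (w.2.1 : ℤ) * x + ((w.1 / w.2.2 : ℕ) : ℤ) ∧
  (n : ℤ) ∣ (w.2.2 : ℤ) * x - (((N - w.1) / w.2.1 : ℕ) : ℤ)

instance (n N : ℕ) (x : ℤ) (w : Σ _ : ℕ, ℕ × ℕ) : Decidable (Cd n N x w) := by
  unfold Cd; infer_instance

/-- the factorization attached to the data -/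
def fw (n N : ℕ) (x : ℤ) (w : Σ _ : ℕ, ℕ × ℕ) : ℤ × ℤ × ℤ × ℤ :=
  (w.2.1, w.2.2, (-((w.1 / w.2.2 : ℕ) : ℤ) - (w.2.1 : ℤ) * x) / n,
    ((((N - w.1) / w.2.1 : ℕ) : ℤ) - (w.2.2 : ℤ) * x) / n)

/-- the facts about the data -/
structure Fc (n N : ℕ) (x : ℤ) (T a a' : ℕ) (X Y : ℕ) (c c' : ℤ) : Prop where
  hX : T / a' = X
  hY : (N - T) / a = Y
  hT : T = a' * X
  hS : N - T = a * Y
  h3 : (a : ℤ) * Y + a' * X = N
  pa : 0 < a
  pa' : 0 < a'
  pX : 0 < X
  pY : 0 < Y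
  hPQ : P a ∧ Q a'
  hc : -(X : ℤ) - a * x = n * c
  hc' : (Y : ℤ) - a' * x = n * c'

variable {P Q}

theorem facts (n N : ℕ) (hn : 0 < n) (x : ℤ) (T a a' : ℕ)
    (h : (⟨T, (a, a')⟩ : Σ _ : ℕ, ℕ × ℕ) ∈ Om P Q N)
    (hC : Cd n N x ⟨T, (a, a')⟩) : ∃ X Y : ℕ, ∃ c c' : ℤ, Fc P Q n N x T a a' X Y c c' ∧
      fw n N x ⟨T, (a, a')⟩ = ((a : ℤ), (a' : ℤ), c, c') := by
  unfold Om at h
  simp only [Finset.mem_sigma, Finset.mem_filter, Finset.mem_range, Finset.mem_product,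
    Nat.mem_divisors] at h
  obtain ⟨hT, ⟨⟨h1, h2⟩, hPa⟩, ⟨h4, h5⟩, h6⟩ := h
  obtain ⟨Y, hY⟩ := h1
  obtain ⟨X, hX⟩ := h4
  have pa : 0 < a := by
    rcases Nat.eq_zero_or_pos a with h | h
    · subst h; simp at hY; omega
    · exact h
  have pa' : 0 < a' := by
    rcases Nat.eq_zero_or_pos a' with h | h
    · subst h; simp at hX; exact absurd hX h5
    · exact h
  have eX : T / a' = X := by rw [hX]; exact Nat.mul_div_cancel_left _ pa'
  have eY : (N - T) / a = Y := by rw [hY]; exact Nat.mul_div_cancel_left _ pa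
  have pX : 0 < X := by
    rcases Nat.eq_zero_or_pos X with h | h
    · subst h; simp at hX; exact absurd hX h5
    · exact h
  have pY : 0 < Y := by
    rcases Nat.eq_zero_or_pos Y with h | h
    · subst h; simp at hY; omega
    · exact h
  have e3 : (a : ℤ) * Y + a' * X = N := by
    have : a * Y + a' * X = N := by omega
    exact_mod_cast this
  unfold Cd at hC
  simp only at hC
  rw [eX, eY] at hC
  obtain ⟨⟨k, hk⟩, ⟨k', hk'⟩⟩ := hC
  have hc : -(X : ℤ) - a * x = n * (-k) := by linear_combination -hk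
  have hc' : (Y : ℤ) - a' * x = n * (-k') := by linear_combination -hk'
  have hm' : (n : ℤ) ≠ 0 := by exact_mod_cast hn.ne'
  refine ⟨X, Y, -k, -k', ⟨eX, eY, hX, hY, e3, pa, pa', pX, pY, ⟨hPa, h6⟩, hc, hc'⟩, ?_⟩
  unfold fw
  simp only
  rw [eX, eY, hc, hc', Int.mul_ediv_cancel_left _ hm', Int.mul_ediv_cancel_left _ hm']

/-- the data and the factorizations -/
theorem bijOn (n d : ℕ) (hn : 0 < n) (hd : 0 < d) (x : ℤ) :
    Set.BijOn (fw n (d * n) x) ((Om P Q (d * n)).filter (Cd n (d * n) x)) (FF P Q d x n) := by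
  have hm' : (n : ℤ) ≠ 0 := by exact_mod_cast hn.ne'
  refine ⟨?_, ?_, ?_⟩
  · rintro ⟨T, a, a'⟩ hw
    rw [Finset.mem_coe, Finset.mem_filter] at hw
    obtain ⟨X, Y, c, c', f, hf⟩ := facts n (d * n) hn x T a a' hw.1 hw.2
    rw [hf]
    have e1 : (n : ℤ) * (a * c' - a' * c) = n * d := by
      have := f.h3
      push_cast at this
      linear_combination this - a * f.hc' + a' * f.hc
    have k1 : (0 : ℤ) < a := by exact_mod_cast f.pa
    have k2 : (0 : ℤ) < a' := by exact_mod_cast f.pa'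
    refine ⟨k1, k2, ?_, mul_left_cancel₀ hm' e1, ?_, ?_⟩
    · show P ((a : ℤ).toNat) ∧ Q ((a' : ℤ).toNat)
      rw [Int.toNat_natCast, Int.toNat_natCast]
      exact f.hPQ
    · have : -((a : ℤ) * x + c * n) = X := by linear_combination f.hc
      show 0 < -((a : ℤ) * x + c * n)
      rw [this]
      exact_mod_cast f.pX
    · have : (a' : ℤ) * x + c' * n = Y := by linear_combination -f.hc'
      show 0 < (a' : ℤ) * x + c' * n
      rw [this]
      exact_mod_cast f.pY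
  · rintro ⟨T, a, a'⟩ hw ⟨T1, a1, a1'⟩ hw1 e
    rw [Finset.mem_coe, Finset.mem_filter] at hw hw1
    obtain ⟨X, Y, c, c', f, hf⟩ := facts n (d * n) hn x T a a' hw.1 hw.2
    obtain ⟨X1, Y1, c1, c1', f1, hf1⟩ := facts n (d * n) hn x T1 a1 a1' hw1.1 hw1.2
    rw [hf, hf1] at e
    simp only [Prod.mk.injEq] at e
    obtain ⟨e1, e2, e3, e4⟩ := e
    have k1 : a = a1 := by exact_mod_cast e1
    have k2 : a' = a1' := by exact_mod_cast e2
    subst k1 k2 e3 e4
    have k7 : X = X1 := by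
      have h1 := f.hc
      have h2 := f1.hc
      have : (X : ℤ) = X1 := by linarith
      exact_mod_cast this
    have k8 : T = T1 := by rw [f.hT, f1.hT, k7]
    subst k8
    rfl
  · rintro ⟨a, a', c, c'⟩ ⟨pa, pa', h5, hdt, pX, pY⟩
    simp only at pa pa' h5 hdt pX pY
    lift a to ℕ using pa.le with a
    lift a' to ℕ using pa'.le with a'
    rw [Int.toNat_natCast, Int.toNat_natCast] at h5
    obtain ⟨X, hX⟩ : ∃ X : ℤ, X = -((a : ℤ) * x + c * n) := ⟨_, rfl⟩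
    obtain ⟨Y, hY⟩ : ∃ Y : ℤ, Y = (a' : ℤ) * x + c' * n := ⟨_, rfl⟩
    rw [← hX] at pX
    rw [← hY] at pY
    lift X to ℕ using pX.le with X
    lift Y to ℕ using pY.le with Y
    have e0 : (a : ℤ) * Y + a' * X = d * n := by
      rw [hX, hY]
      linear_combination (n : ℤ) * hdt
    have e0' : a * Y + a' * X = d * n := by exact_mod_cast e0
    have na : 0 < a := by exact_mod_cast pa
    have na' : 0 < a' := by exact_mod_cast pa'
    have nX : 0 < X := by exact_mod_cast pX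
    have nY : 0 < Y := by exact_mod_cast pY
    have eS : d * n - a' * X = a * Y := by omega
    have pXa : 0 < a' * X := Nat.mul_pos na' nX
    have pYa : 0 < a * Y := Nat.mul_pos na nY
    have e1 : (d * n - a' * X) / a = Y := by rw [eS]; exact Nat.mul_div_cancel_left _ na
    have e2 : a' * X / a' = X := Nat.mul_div_cancel_left _ na'
    have e3 : -(X : ℤ) - a * x = n * c := by rw [hX]; ring
    have e4 : (Y : ℤ) - a' * x = n * c' := by rw [hY]; ring
    refine ⟨⟨a' * X, (a, a')⟩, ?_, ?_⟩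
    · rw [Finset.mem_coe, Finset.mem_filter]
      refine ⟨?_, ?_⟩
      · unfold Om
        simp only [Finset.mem_sigma, Finset.mem_filter, Finset.mem_range, Finset.mem_product,
          Nat.mem_divisors]
        rw [eS]
        exact ⟨by omega, ⟨⟨Dvd.intro _ rfl, by omega⟩, h5.1⟩, ⟨Dvd.intro _ rfl, by omega⟩, h5.2⟩
      · unfold Cd
        simp only
        rw [e1, e2]
        exact ⟨⟨-c, by linear_combination -e3⟩, ⟨-c', by linear_combination -e4⟩⟩
    · unfold fw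
      simp only
      rw [e1, e2, e3, e4, Int.mul_ediv_cancel_left _ hm', Int.mul_ediv_cancel_left _ hm']

/-! ### the weights -/

theorem jac_congr' {p : ℕ} {x y : ℤ} (h : (p : ℤ) ∣ x - y) : jacobiSym x p = jacobiSym y p := by
  apply jacobiSym.mod_left'
  exact Int.emod_eq_emod_iff_emod_sub_eq_zero.2 (Int.emod_eq_zero_of_dvd h)

theorem jac_sq_mul {p : ℕ} {x y : ℤ} (h : IsCoprime x (p : ℤ)) :
    jacobiSym (x ^ 2 * y) p = jacobiSym y p := by
  have h1 : Int.gcd x p = 1 := Int.isCoprime_iff_gcd_eq_one.1 h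
  rw [jacobiSym.mul_left, jacobiSym.pow_left, jacobiSym.sq_one h1, one_mul]

theorem jac_zero_of_dvd {p : ℕ} (hp : p.Prime) {x : ℤ} (h : (p : ℤ) ∣ x) : jacobiSym x p = 0 := by
  haveI : NeZero p := ⟨hp.ne_zero⟩
  rw [jacobiSym.eq_zero_iff_not_coprime]
  intro h3
  have h4 : (p : ℤ) ∣ ((Int.gcd x p : ℕ) : ℤ) := Int.dvd_coe_gcd h (dvd_refl _)
  rw [h3] at h4
  exact hp.one_lt.ne' (Nat.dvd_one.1 (by exact_mod_cast h4))

theorem gen_psl {n N : ℕ} {x : ℤ} {T a a' X Y : ℕ} {c c' : ℤ}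
    (f : Fc P Q n N x T a a' X Y c c') {p : ℕ} (hpp : p.Prime) {d : ℤ}
    (hdet : (a : ℤ) * c' - a' * c = d) (hpd : (p : ℤ) ∣ d)
    (hpn : IsCoprime (n : ℤ) (p : ℤ)) : gen p (fo ((a : ℤ), (a' : ℤ), c, c')) = psl p a a' Y X := by
  have hpP : Prime (p : ℤ) := Nat.prime_iff_prime_int.1 hpp
  unfold gen psl fo
  simp only
  by_cases h1 : p ∣ a ∧ p ∣ a'
  · have h2 : (p : ℤ) ∣ (a : ℤ) * a' := Dvd.dvd.mul_right (by exact_mod_cast h1.1) _
    rw [if_pos h2, if_pos h1, ← jac_sq_mul (y := c * c') hpn]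
    refine jac_congr' ?_
    have ha : (p : ℤ) ∣ (a : ℤ) := by exact_mod_cast h1.1
    have ha' : (p : ℤ) ∣ (a' : ℤ) := by exact_mod_cast h1.2
    have e : (n : ℤ) ^ 2 * (c * c') - (-((X * Y : ℕ) : ℤ)) =
        a' * (x * X + a * x ^ 2) - a * (x * Y) := by
      push_cast
      have e1 := f.hc
      have e2 := f.hc'
      linear_combination (-(n : ℤ) * c') * e1 + ((X : ℤ) + a * x) * e2
    rw [e]
    exact dvd_sub (ha'.mul_right _) (ha.mul_right _)
  · rw [if_neg h1]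
    by_cases h2 : (p : ℤ) ∣ (a : ℤ) * a'
    · rw [if_pos h2]
      have h3 : jacobiSym ((a * a' : ℕ) : ℤ) p = 0 := by
        refine jac_zero_of_dvd hpp ?_
        push_cast
        exact h2
      rw [h3]
      refine jac_zero_of_dvd hpp ?_
      rcases hpP.dvd_or_dvd h2 with h4 | h4
      · have h5 : (p : ℤ) ∣ a' * c := by
          have := dvd_sub (h4.mul_right c') hpd
          rw [← hdet, sub_sub_cancel] at this
          exact this
        rcases hpP.dvd_or_dvd h5 with h6 | h6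
        · exact absurd ⟨by exact_mod_cast h4, by exact_mod_cast h6⟩ h1
        · exact h6.mul_right _
      · have h5 : (p : ℤ) ∣ a * c' := by
          have := dvd_add hpd (h4.mul_right c)
          rw [← hdet, sub_add_cancel] at this
          exact this
        rcases hpP.dvd_or_dvd h5 with h6 | h6
        · exact absurd ⟨by exact_mod_cast h6, by exact_mod_cast h4⟩ h1
        · exact h6.mul_left _
    · rw [if_neg h2]
      push_cast
      rfl

variable (P Q)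

/-- the weighted count of the factorizations -/
def GP (l : ℕ) (x n : ℤ) : ℤ := ∑ᶠ t ∈ FF P Q l x n, gen l (fo t)

variable {P Q}

theorem GP_data {l n : ℕ} (hl : l.Prime) (hn : 0 < n) (hln : ¬ l ∣ n) (x : ℤ) :
    GP P Q l x n = ∑ w ∈ (Om P Q (l * n)).filter (Cd n (l * n) x),
      psl l w.2.1 w.2.2 ((l * n - w.1) / w.2.1) (w.1 / w.2.2) := by
  unfold GP
  have hm' : (n : ℤ) ≠ 0 := by exact_mod_cast hn.ne'
  rw [← finsum_mem_eq_of_bijOn (fw n (l * n) x) (bijOn n l hn hl.pos x)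
    (f := fun w => psl l w.2.1 w.2.2 ((l * n - w.1) / w.2.1) (w.1 / w.2.2)) (by
      rintro ⟨T, a, a'⟩ hw
      rw [Finset.mem_coe, Finset.mem_filter] at hw
      obtain ⟨X, Y, c, c', f, hf⟩ := facts n (l * n) hn x T a a' hw.1 hw.2
      rw [hf]
      have hdet : (a : ℤ) * c' - a' * c = l := by
        have e1 : (n : ℤ) * (a * c' - a' * c) = n * l := by
          have := f.h3
          push_cast at this
          linear_combination this - a * f.hc' + a' * f.hc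
        exact mul_left_cancel₀ hm' e1
      simp only [f.hX, f.hY]
      refine (gen_psl f hl hdet (dvd_refl _) ?_).symm
      refine Nat.isCoprime_iff_coprime.2 ?_
      exact ((Nat.Prime.coprime_iff_not_dvd hl).2 hln).symm)]
  rw [finsum_mem_coe_finset]

theorem Cd_shift (n N : ℕ) (x k : ℤ) (w : Σ _ : ℕ, ℕ × ℕ) :
    Cd n N (x + n * k) w ↔ Cd n N x w := by
  unfold Cd
  have e1 : (w.2.1 : ℤ) * (x + n * k) + ((w.1 / w.2.2 : ℕ) : ℤ) =
      (w.2.1 : ℤ) * x + ((w.1 / w.2.2 : ℕ) : ℤ) + n * (w.2.1 * k) := by ring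
  have e2 : (w.2.2 : ℤ) * (x + n * k) - (((N - w.1) / w.2.1 : ℕ) : ℤ) =
      (w.2.2 : ℤ) * x - (((N - w.1) / w.2.1 : ℕ) : ℤ) + n * (w.2.2 * k) := by ring
  rw [e1, e2, Int.dvd_add_left (dvd_mul_right _ _), Int.dvd_add_left (dvd_mul_right _ _)]

theorem GP_shift {l n : ℕ} (hl : l.Prime) (hn : 0 < n) (hln : ¬ l ∣ n) (x k : ℤ) :
    GP P Q l (x + n * k) n = GP P Q l x n := by
  rw [GP_data hl hn hln, GP_data hl hn hln]
  refine Finset.sum_congr ?_ fun w _ => rfl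
  ext w
  rw [Finset.mem_filter, Finset.mem_filter, Cd_shift]

/-- the local weight of the cusps -/
def wc (A a a' Y X : ℕ) : ℤ :=
  (if 2 ∣ A then psp2 (3 * A) a a' Y X else 1) * ∏ p ∈ A.primeFactors.erase 2, psp p a a' Y X

/-- the character sum over the cusps of given data -/
theorem sum_cusp {A N : ℕ} (hA : Fd A) (hAN : A ∣ N)
    (hpN : ∀ p ∈ A.primeFactors.erase 2, ¬ p ^ 2 ∣ N) (a a' X Y : ℕ) (hdet : a * Y + a' * X = N) :
    ∑ u ∈ (un A).filter (fun u : ℕ => (A : ℤ) ∣ (a : ℤ) * (u : ℤ) + (X : ℤ) ∧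
      (A : ℤ) ∣ (a' : ℤ) * (u : ℤ) - (Y : ℤ)), chP A u = wc A a a' Y X := by
  rcases hA.2 with ⟨hsq, h4⟩ | ⟨M, rfl, hM, h4⟩
  · have h2 : ¬ 2 ∣ A := by omega
    have hP : ∀ p ∈ A.primeFactors, p.Prime := fun p hp => Nat.prime_of_mem_primeFactors hp
    have hprod : ∏ p ∈ A.primeFactors, p = A := Nat.prod_primeFactors_of_squarefree hsq
    have he : A.primeFactors.erase 2 = A.primeFactors :=
      Finset.erase_eq_of_notMem fun h => h2 (Nat.dvd_of_mem_primeFactors h)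
    rw [he] at hpN
    have key := gen_C1B A.primeFactors hP a a' X Y N hdet (fun p hp =>
      ⟨(Nat.dvd_of_mem_primeFactors hp).trans hAN, hpN p hp⟩)
    rw [hprod] at key
    unfold wc
    rw [if_neg h2, one_mul, he, ← key]
    refine Finset.sum_congr rfl fun u _ => ?_
    unfold chP
    rw [if_neg h2, one_mul, he, Pool.Agent.N975.PG.jac_prod _ hsq]
  · have h2 : 2 ∣ 4 * M := ⟨2 * M, by ring⟩
    have key := gen_str (str_pos hM h4) hAN hpN a a' X Y hdet
    unfold wc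
    rw [if_pos h2, ← key]
    refine Finset.sum_congr rfl fun u _ => ?_
    unfold chP chb
    rw [if_pos h2]

theorem sq_not_dvd {A l : ℕ} (hA : Fd A) (hl : l.Prime) (hlA : ¬ l ∣ A) :
    ∀ p ∈ A.primeFactors.erase 2, ¬ p ^ 2 ∣ l * A := by
  intro p hp h
  rw [Finset.mem_erase] at hp
  have hpp := Nat.prime_of_mem_primeFactors hp.2
  have hpA := Nat.dvd_of_mem_primeFactors hp.2
  have hpl : Nat.Coprime (p ^ 2) l := by
    refine Nat.Coprime.pow_left 2 ((Nat.coprime_primes hpp hl).2 ?_)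
    rintro rfl
    exact hlA hpA
  have h1 := hpl.dvd_of_dvd_mul_left h
  rcases hA.2 with ⟨hsq, -⟩ | ⟨M, rfl, hM, -⟩
  · rw [pow_two] at h1
    exact hpp.one_lt.ne' (Nat.isUnit_iff.1 (hsq p h1))
  · have h9 : Nat.Coprime (p ^ 2) 4 := by
      have h10 : Nat.Coprime p 2 := (Nat.coprime_primes hpp Nat.prime_two).2 hp.1
      exact Nat.Coprime.pow 2 2 h10
    have h12 := h9.dvd_of_dvd_mul_left h1
    rw [pow_two] at h12
    exact hpp.one_lt.ne' (Nat.isUnit_iff.1 (hM p h12))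

/-- the sum over the data -/
theorem sum_data {A l : ℕ} (hA : Fd A) (hl : l.Prime) (hlA : ¬ l ∣ A) :
    ∑ u ∈ un A, chP A u * GP P Q l u A = ∑ T ∈ range (l * A),
      ∑ a ∈ (l * A - T).divisors.filter P, ∑ a' ∈ T.divisors.filter Q,
        psl l a a' ((l * A - T) / a) (T / a') * wc A a a' ((l * A - T) / a) (T / a') := by
  have hA0 : 0 < A := by have := hA.1; omega
  have h1 : ∀ u ∈ un A, chP A u * GP P Q l u A =
      ∑ w ∈ Om P Q (l * A), (if Cd A (l * A) u w then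
        psl l w.2.1 w.2.2 ((l * A - w.1) / w.2.1) (w.1 / w.2.2) * chP A u else 0) := by
    intro u _
    rw [GP_data hl hA0 hlA, Finset.mul_sum, Finset.sum_filter]
    refine Finset.sum_congr rfl fun w _ => ?_
    split_ifs <;> ring
  rw [Finset.sum_congr rfl h1, Finset.sum_comm]
  have h2 : ∀ w ∈ Om P Q (l * A), ∑ u ∈ un A, (if Cd A (l * A) u w then
        psl l w.2.1 w.2.2 ((l * A - w.1) / w.2.1) (w.1 / w.2.2) * chP A u else 0) =
      psl l w.2.1 w.2.2 ((l * A - w.1) / w.2.1) (w.1 / w.2.2) *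
        wc A w.2.1 w.2.2 ((l * A - w.1) / w.2.1) (w.1 / w.2.2) := by
    rintro ⟨T, a, a'⟩ hw
    have hw' := hw
    unfold Om at hw'
    simp only [Finset.mem_sigma, Finset.mem_filter, Finset.mem_range, Finset.mem_product,
      Nat.mem_divisors] at hw'
    obtain ⟨hT, ⟨⟨h3, h4⟩, hPa⟩, ⟨h5, h6⟩, h7⟩ := hw'
    have hdet : a * ((l * A - T) / a) + a' * (T / a') = l * A := by
      rw [Nat.mul_div_cancel' h3, Nat.mul_div_cancel' h5]
      omega
    have key := sum_cusp hA (Dvd.intro_left l rfl) (sq_not_dvd hA hl hlA) a a' (T / a')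
      ((l * A - T) / a) hdet
    simp only
    rw [← key, Finset.sum_filter, Finset.mul_sum]
    refine Finset.sum_congr rfl fun u _ => ?_
    by_cases hC : Cd A (l * A) u ⟨T, (a, a')⟩
    · rw [if_pos hC]
      congr 1
      exact (if_pos hC).symm
    · rw [if_neg hC]
      have h0 : (if (A : ℤ) ∣ (a : ℤ) * (u : ℤ) + ((T / a' : ℕ) : ℤ) ∧
          (A : ℤ) ∣ (a' : ℤ) * (u : ℤ) - (((l * A - T) / a : ℕ) : ℤ) then chP A u else 0) = 0 :=
        if_neg hC
      rw [h0, mul_zero]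
  rw [Finset.sum_congr rfl h2]
  unfold Om
  rw [Finset.sum_sigma]
  refine Finset.sum_congr rfl fun T _ => ?_
  rw [Finset.sum_product]

end data

/-! ### the reflection -/

theorem un_refl {m : ℕ} (hm : 1 < m) (f : ℤ → ℤ) :
    ∑ u ∈ un m, f ((m : ℤ) - u) = ∑ u ∈ un m, f u := by
  have hun : ∀ u ∈ un m, m - u ∈ un m := by
    intro u hu
    unfold un at hu ⊢
    rw [Finset.mem_filter, Finset.mem_range] at hu ⊢
    have hu0 : u ≠ 0 := by
      rintro rfl
      have := hu.2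
      rw [Nat.coprime_zero_left] at this
      omega
    refine ⟨by omega, ?_⟩
    rw [Nat.coprime_comm, Nat.coprime_self_sub_right hu.1.le, Nat.coprime_comm]
    exact hu.2
  have hle : ∀ u ∈ un m, u < m := by
    intro u hu
    unfold un at hu
    rw [Finset.mem_filter, Finset.mem_range] at hu
    exact hu.1
  refine Finset.sum_nbij' (fun u => m - u) (fun u => m - u) hun hun ?_ ?_ ?_
  · intro u hu
    have := hle u hu
    omega
  · intro u hu
    have := hle u hu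
    omega
  · intro u hu
    rw [Nat.cast_sub (hle u hu).le]

theorem chP_neg {A : ℕ} (hA : Fd A) (u : ℤ) : chP A ((A : ℤ) - u) = chP A u := by
  rcases hA.2 with ⟨hsq, h4⟩ | ⟨M, hAM, hM, h4⟩
  · have h2 : ¬ 2 ∣ A := by omega
    have he : A.primeFactors.erase 2 = A.primeFactors :=
      Finset.erase_eq_of_notMem fun h => h2 (Nat.dvd_of_mem_primeFactors h)
    unfold chP
    rw [if_neg h2, if_neg h2, he, Pool.Agent.N975.PG.jac_prod _ hsq,
      Pool.Agent.N975.PG.jac_prod _ hsq, one_mul, one_mul]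
    have h3 : jacobiSym ((A : ℤ) - u) A = jacobiSym (-u) A := by
      apply jac_congr'
      exact ⟨1, by ring⟩
    rw [h3, jacobiSym.neg u (Nat.odd_iff.2 (by omega)), ZMod.χ₄_nat_one_mod_four h4, one_mul]
  · have hE : ChP.Ev A := ⟨M, hAM, hM, h4.symm⟩
    rw [Pool.Agent.N974.PG.chP_eq hE, Pool.Agent.N974.PG.chP_eq hE]
    have h3 : ChP.chE A ((A : ℤ) - u) = ChP.chE A (-1 * u) := by
      apply ChP.chE_mod (ChP.ev_mod hE)
      exact ⟨1, by ring⟩
    rw [h3, ChP.chE_mul, Pool.Agent.N974.PG.chE_neg_one hE, one_mul]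

theorem sum_neg {A l : ℕ} (hA : Fd A) (hl : l.Prime) (hlA : ¬ l ∣ A) (P Q : ℕ → Prop)
    [DecidablePred P] [DecidablePred Q] :
    ∑ u ∈ un A, chP A u * GP P Q l (-(u : ℤ)) A = ∑ u ∈ un A, chP A u * GP P Q l u A := by
  have hA0 : 0 < A := by have := hA.1; omega
  have h1 := un_refl hA.1 (fun u => chP A u * GP P Q l (-u) A)
  rw [← h1]
  refine Finset.sum_congr rfl fun u _ => ?_
  rw [chP_neg hA]
  have e : -((A : ℤ) - u) = (u : ℤ) + A * (-1) := by ring
  rw [e, GP_shift hl hA0 hlA]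

/-! ### the forms -/

/-- primitive factorizations -/
theorem cop_of_gen {l : ℕ} (hl : l.Prime) {a a' c c' : ℤ} (hd : a * c' - a' * c = l)
    (h : gen l (fo (a, a', c, c')) ≠ 0) : IsCoprime a c := by
  rw [Int.isCoprime_iff_gcd_eq_one]
  by_contra hg
  obtain ⟨p, hp, hpg⟩ := Nat.exists_prime_and_dvd hg
  have h1 : (p : ℤ) ∣ a := (by exact_mod_cast hpg : (p : ℤ) ∣ (Int.gcd a c : ℤ)).trans
    (Int.gcd_dvd_left ..)
  have h2 : (p : ℤ) ∣ c := (by exact_mod_cast hpg : (p : ℤ) ∣ (Int.gcd a c : ℤ)).trans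
    (Int.gcd_dvd_right ..)
  have h3 : (p : ℤ) ∣ (l : ℤ) := by
    rw [← hd]
    exact dvd_sub (h1.mul_right _) (h2.mul_left _)
  have h4 : p = l := (Nat.prime_dvd_prime_iff_eq hp hl).1 (by exact_mod_cast h3)
  subst h4
  apply h
  unfold gen fo
  simp only
  rw [if_pos (h1.mul_right _)]
  exact jac_zero_of_dvd hp (h2.mul_right _)

/-- the forms of the counting function with a level condition `Lv` -/
def SA (Lv : ℤ × ℤ × ℤ → Prop) (l : ℕ) (x M : ℤ) : Set (ℤ × ℤ × ℤ) :=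
  {f | f.2.1 ^ 2 - 4 * f.1 * f.2.2 = (l : ℤ) ^ 2 ∧ Lv f ∧ 0 < f.1 ∧
    f.1 * x ^ 2 + f.2.1 * x * M + f.2.2 * M ^ 2 < 0}

theorem SA_fin (Lv : ℤ × ℤ × ℤ → Prop) (A : ℕ) (x M : ℤ) (hM : 0 < M) : (SA Lv A x M).Finite := by
  have h1 : ((Set.Icc (0:ℤ) ((A : ℤ) ^ 2 * M^2)) ×ˢ
      (Set.Icc (-((A : ℤ) ^ 2 * M^2)) ((A : ℤ) ^ 2 * M ^ 2))).Finite :=
    (Set.finite_Icc _ _).prod (Set.finite_Icc _ _)
  refine Set.Finite.of_injOn (f := fun q : ℤ×ℤ×ℤ => (q.1, 2 * q.1 * x + q.2.1 * M)) ?_ ?_ h1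
  · rintro ⟨a, B, C⟩ ⟨hd, _, hA, hN⟩
    simp only at hd hA hN
    have key : (2*a*x+B*M)^2 = 4*(a*(a*x^2+B*x*M+C*M^2)) + (A : ℤ) ^ 2*M^2 := by
      linear_combination M^2 * hd
    have h2 : a * (a*x^2+B*x*M+C*M^2) ≤ -a := by nlinarith
    have h3 : 0 ≤ (2*a*x+B*M)^2 := sq_nonneg _
    have h4 : (2*a*x+B*M)^2 ≤ (A : ℤ) ^ 2*M^2 := by linarith
    have h5 : |2*a*x+B*M| ≤ (2*a*x+B*M)^2 := by
      rw [← sq_abs]
      have := abs_nonneg (2*a*x+B*M)
      nlinarith [Int.le_self_sq (|2*a*x+B*M|)]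
    have h6 := abs_le.1 (h5.trans h4)
    simp only [Set.mem_prod, Set.mem_Icc]
    refine ⟨⟨hA.le, by linarith⟩, h6.1, h6.2⟩
  · rintro ⟨a, B, C⟩ ⟨hd, _, hA, hN⟩ ⟨A', B', C'⟩ ⟨hd', _, hA', hN'⟩ h
    simp only [Prod.mk.injEq] at h hd hd' hA hA'
    obtain ⟨rfl, h2⟩ := h
    have h3 : B * M = B' * M := by linarith
    have h4 : B = B' := mul_right_cancel₀ hM.ne' h3
    subst h4
    have h5 : a * C = a * C' := by linarith
    have h6 : C = C' := mul_left_cancel₀ hA.ne' h5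
    rw [h6]

/-- a level condition is compatible with the conditions on the factors -/
structure Comp (P Q : ℕ → Prop) (l : ℕ) (Lv : ℤ × ℤ × ℤ → Prop) : Prop where
  fwd : ∀ {a a' : ℕ} {c c' : ℤ}, P a → Q a' → (a : ℤ) * c' - a' * c = l →
    Lv (fo ((a : ℤ), (a' : ℤ), c, c'))
  bwd : ∀ {a a' : ℕ} {c c' : ℤ}, Lv (fo ((a : ℤ), (a' : ℤ), c, c')) → (a : ℤ) * c' - a' * c = l →
    P a ∧ Q a'

variable {P Q : ℕ → Prop} [DecidablePred P] [DecidablePred Q]

/-- the forms of orientation `+` and the factorizations -/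
theorem bijP {l : ℕ} (hl : l.Prime) {Lv : ℤ × ℤ × ℤ → Prop}
    (H : Comp P Q l Lv) (x n : ℤ) (hn : 0 < n) :
    Set.BijOn fo (FF P Q l x n ∩ Function.support fun t => gen l (fo t))
    (SA Lv l x n ∩ Function.support fun q => gen l q) := by
  have hl0' : (0 : ℤ) < l := by exact_mod_cast hl.pos
  refine ⟨?_, ?_, ?_⟩
  · rintro ⟨a, a', c, c'⟩ ⟨⟨pa, pa', h5, hdt, pX, pY⟩, hs⟩
    simp only at pa pa' h5 hdt pX pY
    have hform : a * a' * x ^ 2 + (a * c' + a' * c) * x * n + c * c' * n ^ 2 < 0 := by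
      have e : a * a' * x ^ 2 + (a * c' + a' * c) * x * n + c * c' * n ^ 2 =
        -(-(a * x + c * n) * (a' * x + c' * n)) := by ring
      rw [e]
      have := mul_pos pX pY
      linarith
    refine ⟨⟨?_, ?_, mul_pos pa pa', hform⟩, hs⟩
    · show (a * c' + a' * c) ^ 2 - 4 * (a * a') * (c * c') = (l : ℤ) ^ 2
      linear_combination (a * c' - a' * c + l) * hdt
    · lift a to ℕ using pa.le with a
      lift a' to ℕ using pa'.le with a'
      rw [Int.toNat_natCast, Int.toNat_natCast] at h5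
      exact H.fwd h5.1 h5.2 hdt
  · rintro ⟨a, a', c, c'⟩ ⟨⟨pa, pa', h5, hdt, pX, pY⟩, hs⟩ ⟨a1, a1', c1, c1'⟩
      ⟨⟨pa1, pa1', h51, hdt1, pX1, pY1⟩, hs1⟩ e
    simp only at pa pa' h5 hdt pX pY pa1 pa1' h51 hdt1 pX1 pY1
    have hc : IsCoprime a c := cop_of_gen hl hdt hs
    have hc1 : IsCoprime a1 c1 := cop_of_gen hl hdt1 hs1
    simp only [fo, Prod.mk.injEq] at e
    obtain ⟨e1, e2, e3⟩ := e
    obtain ⟨k1, k2, k3, k4⟩ := inj_gen pa' pa1' hc hc1 hdt hdt1 pa e1 e2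
    rw [k1, k2, k3, k4]
  · rintro ⟨a0, B, C⟩ ⟨⟨hd, hLv, ha0, hN⟩, hs⟩
    simp only at hd ha0 hN
    have hpar : (2 : ℤ) ∣ B - l := by
      have h1 : (2 : ℤ) ∣ (B - l) * (B + l) := ⟨2 * (a0 * C), by linear_combination hd⟩
      rcases Int.prime_two.dvd_or_dvd h1 with h2 | h2
      · exact h2
      · have e : B - l = B + l - 2 * l := by ring
        rw [e]
        exact dvd_sub h2 ⟨l, rfl⟩
    obtain ⟨γ, hγ⟩ := hpar
    have hB : B = 2 * γ + l := by linarith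
    subst hB
    have hAC : a0 * C = γ * (γ + l) := by linarith
    obtain ⟨a, a', c, c', pa, pa', ha, hc, hc', hC, hcop⟩ := exists_fac ha0 hAC
    have hdt : a * c' - a' * c = l := by rw [← hc', ← hc]; ring
    have hs' : 0 < -(a * x + c * n) ∧ 0 < a' * x + c' * n := by
      refine sign_of pa pa' hl0' hn hdt ?_
      have e : a * a' * x ^ 2 + (a * c' + a' * c) * x * n + c * c' * n ^ 2 =
        a0 * x ^ 2 + (2 * γ + l) * x * n + C * n ^ 2 := by
        rw [ha, hC, ← hc', ← hc]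
        ring
      rw [e]
      exact hN
    have hfo : fo (a, a', c, c') = (a0, 2 * γ + l, C) := by
      simp only [fo, Prod.mk.injEq]
      exact ⟨ha.symm, by rw [← hc', ← hc]; ring, hC.symm⟩
    have hPQ : P a.toNat ∧ Q a'.toNat := by
      lift a to ℕ using pa.le with a
      lift a' to ℕ using pa'.le with a'
      rw [Int.toNat_natCast, Int.toNat_natCast]
      refine H.bwd ?_ hdt
      rw [hfo]
      exact hLv
    refine ⟨(a, a', c, c'), ⟨⟨pa, pa', hPQ, hdt, hs'.1, hs'.2⟩, ?_⟩, hfo⟩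
    rw [Function.mem_support, hfo]
    exact hs

theorem GP_plus {l : ℕ} (hl : l.Prime) {Lv : ℤ × ℤ × ℤ → Prop} (H : Comp P Q l Lv) (x n : ℤ)
    (hn : 0 < n) : ∑ᶠ q ∈ SA Lv l x n, gen l q = GP P Q l x n := by
  unfold GP
  rw [← finsum_mem_inter_support, ← finsum_mem_inter_support (fun t => gen l (fo t)) (FF P Q l x n)]
  exact (finsum_mem_eq_of_bijOn fo (bijP hl H x n hn) fun t _ => rfl).symm

/-- the reflection of the forms -/
theorem flip_bij (Lv : ℤ × ℤ × ℤ → Prop) (l : ℕ) (x n : ℤ) :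
    Set.BijOn (fun q : ℤ × ℤ × ℤ => (q.1, -q.2.1, q.2.2))
    (SA (fun f => Lv (f.1, -f.2.1, f.2.2)) l x n) (SA Lv l (-x) n) := by
  refine ⟨?_, ?_, ?_⟩
  · rintro ⟨a, B, C⟩ ⟨hd, hL, ha0, hN⟩
    simp only at hd hL ha0 hN
    refine ⟨?_, hL, ha0, ?_⟩
    · show (-B) ^ 2 - 4 * a * C = (l : ℤ) ^ 2
      linear_combination hd
    · show a * (-x) ^ 2 + (-B) * (-x) * n + C * n ^ 2 < 0
      calc _ = a * x ^ 2 + B * x * n + C * n ^ 2 := by ring
        _ < 0 := hN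
  · rintro ⟨a, B, C⟩ - ⟨a1, B1, C1⟩ - h
    simp only [Prod.mk.injEq, neg_inj] at h
    obtain ⟨rfl, rfl, rfl⟩ := h
    rfl
  · rintro ⟨a, B, C⟩ ⟨hd, hL, ha0, hN⟩
    simp only at hd hL ha0 hN
    refine ⟨(a, -B, C), ⟨?_, ?_, ha0, ?_⟩, ?_⟩
    · show (-B) ^ 2 - 4 * a * C = (l : ℤ) ^ 2
      linear_combination hd
    · show Lv (a, - -B, C)
      rw [neg_neg]
      exact hL
    · show a * x ^ 2 + (-B) * x * n + C * n ^ 2 < 0
      calc _ = a * (-x) ^ 2 + B * (-x) * n + C * n ^ 2 := by ring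
        _ < 0 := hN
    · simp only [neg_neg]

open Classical in
/-- the counting function by orientation -/
theorem F_eq {l : ℕ} (hl : l.Prime) {Lv : ℤ × ℤ × ℤ → Prop} (H : Comp P Q l Lv)
    {Lw : ℤ × ℤ × ℤ → Prop}
    (hor : ∀ f : ℤ × ℤ × ℤ, f.2.1 ^ 2 - 4 * f.1 * f.2.2 = (l : ℤ) ^ 2 →
      (Lw f ↔ Lv f ∨ Lv (f.1, -f.2.1, f.2.2)))
    (hdis : ∀ f : ℤ × ℤ × ℤ, Lv f → ¬ Lv (f.1, -f.2.1, f.2.2)) (x n : ℤ) (hn : 0 < n) :
    (∑ᶠ f : ℤ × ℤ × ℤ, if f.2.1 ^ 2 - 4 * f.1 * f.2.2 = (l : ℤ) ^ 2 ∧ Lw f ∧ 0 < f.1 ∧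
      f.1 * x ^ 2 + f.2.1 * x * n + f.2.2 * n ^ 2 < 0 then gen l f else 0) =
      GP P Q l x n + GP P Q l (-x) n := by
  have e1 : (∑ᶠ f : ℤ × ℤ × ℤ, if f.2.1 ^ 2 - 4 * f.1 * f.2.2 = (l : ℤ) ^ 2 ∧ Lw f ∧ 0 < f.1 ∧
      f.1 * x ^ 2 + f.2.1 * x * n + f.2.2 * n ^ 2 < 0 then gen l f else 0) =
      ∑ᶠ f ∈ SA Lw l x n, gen l f := by
    refine finsum_congr fun q => ?_
    rw [finsum_eq_if]
    by_cases h : q ∈ SA Lw l x n
    · rw [if_pos h]
      exact if_pos h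
    · rw [if_neg h]
      exact if_neg h
  have e2 : SA Lw l x n = SA Lv l x n ∪ SA (fun f => Lv (f.1, -f.2.1, f.2.2)) l x n := by
    ext f
    constructor
    · rintro ⟨h1, h2, h3⟩
      rcases (hor f h1).1 h2 with h4 | h4
      · exact Or.inl ⟨h1, h4, h3⟩
      · exact Or.inr ⟨h1, h4, h3⟩
    · rintro (⟨h1, h2, h3⟩ | ⟨h1, h2, h3⟩)
      · exact ⟨h1, (hor f h1).2 (Or.inl h2), h3⟩
      · exact ⟨h1, (hor f h1).2 (Or.inr h2), h3⟩
  have hd : Disjoint (SA Lv l x n) (SA (fun f => Lv (f.1, -f.2.1, f.2.2)) l x n) := by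
    rw [Set.disjoint_left]
    rintro f ⟨-, h1, -⟩ ⟨-, h2, -⟩
    exact hdis f h1 h2
  rw [e1, e2, finsum_mem_union hd (SA_fin _ l x n hn) (SA_fin _ l x n hn), GP_plus hl H x n hn,
    ← GP_plus hl H (-x) n hn, ← finsum_mem_eq_of_bijOn _ (flip_bij Lv l x n)
      (f := fun q => gen l q) (fun q _ => rfl)]

theorem main {A l : ℕ} (hA : Fd A) (hl : l.Prime) (hlA : ¬ l ∣ A) {F : ℤ → ℤ → ℤ}
    (hF : ∀ x n : ℤ, 0 < n → F x n = GP P Q l x n + GP P Q l (-x) n) :
    ∑ u ∈ un A, chP A u * F u A = 2 * ∑ T ∈ range (l * A),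
      ∑ a ∈ (l * A - T).divisors.filter P, ∑ a' ∈ T.divisors.filter Q,
        psl l a a' ((l * A - T) / a) (T / a') * wc A a a' ((l * A - T) / a) (T / a') := by
  have hA0 : (0 : ℤ) < A := by have := hA.1; omega
  have e1 : ∑ u ∈ un A, chP A u * F u A = ∑ u ∈ un A, chP A u * GP P Q l u A +
      ∑ u ∈ un A, chP A u * GP P Q l (-(u : ℤ)) A := by
    rw [← Finset.sum_add_distrib]
    refine Finset.sum_congr rfl fun u _ => ?_
    rw [hF _ _ hA0]
    ring
  rw [e1, sum_neg hA hl hlA, sum_data hA hl hlA]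
  ring

/-! ### the prime `p` does not divide `2 l` -/

theorem two_dvd_of {p : ℕ} (hp : p.Prime) (h2 : p ≠ 2) {x : ℤ} (h : (p : ℤ) ∣ 2 * x) :
    (p : ℤ) ∣ x := by
  rcases (Nat.prime_iff_prime_int.1 hp).dvd_or_dvd h with h1 | h1
  · exfalso
    have h3 : p ∣ 2 := by exact_mod_cast h1
    exact h2 ((Nat.prime_dvd_prime_iff_eq hp Nat.prime_two).1 h3)
  · exact h1

theorem ndvd {p l : ℕ} (hp : p.Prime) (hl : l.Prime) (hpl : l ≠ p) : ¬ (p : ℤ) ∣ (l : ℤ) := by
  intro h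
  have h1 : p ∣ l := by exact_mod_cast h
  exact hpl ((Nat.prime_dvd_prime_iff_eq hp hl).1 h1).symm

theorem comp1 {q r l : ℕ} (hq : q.Prime) (hr : r.Prime) (hq2 : q ≠ 2) (hr2 : r ≠ 2)
    (hl : l.Prime) (hlq : l ≠ q) (hlr : l ≠ r) : Comp (fun a => q ∣ a) (fun a' => r ∣ a') l
      (fun f => ((q * r : ℕ) : ℤ) ∣ f.1 ∧ (q : ℤ) ∣ f.2.1 + l ∧ (r : ℤ) ∣ f.2.1 - l) where
  fwd := by
    rintro a a' c c' ⟨k, rfl⟩ ⟨m, rfl⟩ hd
    unfold fo
    simp only
    refine ⟨⟨k * m, by push_cast; ring⟩, ⟨2 * k * c', ?_⟩, ⟨2 * m * c, ?_⟩⟩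
    · push_cast at hd ⊢
      linear_combination -hd
    · push_cast at hd ⊢
      linear_combination hd
  bwd := by
    intro a a' c c' h hd
    unfold fo at h
    simp only at h
    obtain ⟨⟨k, hk⟩, h2, h3⟩ := h
    push_cast at hk
    have hqP := Nat.prime_iff_prime_int.1 hq
    have hrP := Nat.prime_iff_prime_int.1 hr
    have h2' : (q : ℤ) ∣ a * c' := by
      apply two_dvd_of hq hq2
      have e : 2 * ((a : ℤ) * c') = a * c' + a' * c + l := by linear_combination hd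
      rw [e]
      exact h2
    have h3' : (r : ℤ) ∣ a' * c := by
      apply two_dvd_of hr hr2
      have e : 2 * ((a' : ℤ) * c) = a * c' + a' * c - l := by linear_combination -hd
      rw [e]
      exact h3
    have hqa : (q : ℤ) ∣ a * a' := ⟨r * k, by rw [hk]; ring⟩
    have hra : (r : ℤ) ∣ a * a' := ⟨q * k, by rw [hk]; ring⟩
    constructor
    · rcases hqP.dvd_or_dvd hqa with h4 | h4
      · exact_mod_cast h4
      · exfalso
        apply ndvd hq hl hlq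
        rw [← hd]
        exact dvd_sub h2' (h4.mul_right _)
    · rcases hrP.dvd_or_dvd hra with h4 | h4
      · exfalso
        apply ndvd hr hl hlr
        rw [← hd]
        exact dvd_sub (h4.mul_right _) h3'
      · exact_mod_cast h4

theorem comp2 {q r l : ℕ} (hq : q.Prime) (hr : r.Prime) (hr2 : r ≠ 2)
    (hl : l.Prime) (hlr : l ≠ r) : Comp (fun a => ¬ q ∣ a) (fun a' => r ∣ a' ∧ ¬ q ∣ a') l
      (fun f => ((r : ℤ) ∣ f.1 ∧ ¬ (q : ℤ) ∣ f.1) ∧ (r : ℤ) ∣ f.2.1 - l) where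
  fwd := by
    rintro a a' c c' h1 ⟨⟨m, rfl⟩, h2⟩ hd
    unfold fo
    simp only
    have hqP := Nat.prime_iff_prime_int.1 hq
    refine ⟨⟨⟨a * m, by push_cast; ring⟩, ?_⟩, ⟨2 * m * c, ?_⟩⟩
    · intro h
      rcases hqP.dvd_or_dvd h with h3 | h3
      · exact h1 (by exact_mod_cast h3)
      · exact h2 (by exact_mod_cast h3)
    · push_cast at hd ⊢
      linear_combination hd
  bwd := by
    intro a a' c c' h hd
    unfold fo at h
    simp only at h
    obtain ⟨⟨h1, h2⟩, h3⟩ := h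
    have hrP := Nat.prime_iff_prime_int.1 hr
    have h3' : (r : ℤ) ∣ a' * c := by
      apply two_dvd_of hr hr2
      have e : 2 * ((a' : ℤ) * c) = a * c' + a' * c - l := by linear_combination -hd
      rw [e]
      exact h3
    refine ⟨fun h => h2 (Dvd.dvd.mul_right (by exact_mod_cast h) _), ?_,
      fun h => h2 (Dvd.dvd.mul_left (by exact_mod_cast h) _)⟩
    rcases hrP.dvd_or_dvd h1 with h4 | h4
    · exfalso
      apply ndvd hr hl hlr
      rw [← hd]
      exact dvd_sub (h4.mul_right _) h3'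
    · exact_mod_cast h4

/-- **C1D** -/
theorem t_C1D : S_C1D := by
  classical
  intro q r A l hq hr _ hq2 hr2 hA hl _ hlq hlr hlA _ _
  have key := main hA hl hlA (P := fun a => q ∣ a) (Q := fun a' => r ∣ a') (F := Fl q r l) ?_
  · rw [key, mul_comm A l]
    congr 1
    symm
    rw [Finset.sum_filter]
    refine Finset.sum_congr rfl fun T hT => ?_
    by_cases h : r ∣ T ∧ q ∣ l * A - T
    · rw [if_pos h]
      rfl
    · rw [if_neg h]
      symm
      refine Finset.sum_eq_zero fun a ha => Finset.sum_eq_zero fun a' ha' => ?_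
      rw [Finset.mem_filter, Nat.mem_divisors] at ha ha'
      exact absurd ⟨ha'.2.trans ha'.1.1, ha.2.trans ha.1.1⟩ h
  · intro x n hn
    rw [← F_eq hl (comp1 hq hr hq2 hr2 hl hlq hlr) (Lw := fun f => ((q * r : ℕ) : ℤ) ∣ f.1 ∧
      (((q : ℤ) ∣ f.2.1 - l ∧ (r : ℤ) ∣ f.2.1 + l) ∨
        ((q : ℤ) ∣ f.2.1 + l ∧ (r : ℤ) ∣ f.2.1 - l))) ?_ ?_ x n hn]
    · unfold Fl
      refine finsum_congr fun f => ?_
      simp only [and_assoc]
    · intro f _
      have e1 : -f.2.1 + (l : ℤ) = -(f.2.1 - l) := by ring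
      have e2 : -f.2.1 - (l : ℤ) = -(f.2.1 + l) := by ring
      simp only [e1, e2, dvd_neg]
      tauto
    · rintro f ⟨-, h1, -⟩ ⟨-, h2, -⟩
      simp only at h2
      apply ndvd hq hl hlq
      apply two_dvd_of hq hq2
      have e : 2 * (l : ℤ) = (f.2.1 + l) + (-f.2.1 + l) := by ring
      rw [e]
      exact h1.add h2

/-- **C1Dr** -/
theorem t_C1Dr : S_C1Dr := by
  classical
  intro q r A l hq hr _ hq2 hr2 hA hl _ _ hlr hlA _ hqA
  have key := main hA hl hlA (P := fun a => ¬ q ∣ a) (Q := fun a' => r ∣ a' ∧ ¬ q ∣ a')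
    (F := Flr q r l) ?_
  · rw [key, mul_comm A l]
    congr 1
    symm
    rw [Finset.sum_filter]
    refine Finset.sum_congr rfl fun T hT => ?_
    by_cases h : r ∣ T ∧ ¬ q ∣ T
    · rw [if_pos h]
      rfl
    · rw [if_neg h]
      symm
      refine Finset.sum_eq_zero fun a ha => Finset.sum_eq_zero fun a' ha' => ?_
      rw [Finset.mem_filter, Nat.mem_divisors] at ha ha'
      have hrT : r ∣ T := ha'.2.1.trans ha'.1.1
      have hqT : q ∣ T := by
        by_contra h1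
        exact h ⟨hrT, h1⟩
      have hX : q ∣ T / a' := by
        have e : a' * (T / a') = T := Nat.mul_div_cancel' ha'.1.1
        rw [← e] at hqT
        rcases (Nat.Prime.dvd_mul hq).1 hqT with h2 | h2
        · exact absurd h2 ha'.2.2
        · exact h2
      have hmem : q ∈ A.primeFactors.erase 2 := by
        rw [Finset.mem_erase, Nat.mem_primeFactors]
        exact ⟨hq2, hq, hqA, by have := hA.1; omega⟩
      have h0 : psp q a a' ((l * A - T) / a) (T / a') = 0 := by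
        unfold psp
        rw [if_neg (fun h3 => ha.2 h3.1)]
        apply jac_zero_of_dvd hq
        rw [dvd_neg]
        exact_mod_cast Dvd.dvd.mul_left hX a
      have h1 : wc A a a' ((l * A - T) / a) (T / a') = 0 := by
        unfold wc
        rw [Finset.prod_eq_zero hmem h0, mul_zero]
      rw [h1, mul_zero]
  · intro x n hn
    rw [← F_eq hl (comp2 hq hr hr2 hl hlr) (Lw := fun f => (r : ℤ) ∣ f.1 ∧ ¬ (q : ℤ) ∣ f.1)
      ?_ ?_ x n hn]
    · unfold Flr
      refine finsum_congr fun f => ?_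
      simp only [and_assoc]
    · intro f hd
      have e2 : -f.2.1 - (l : ℤ) = -(f.2.1 + l) := by ring
      simp only [e2, dvd_neg]
      constructor
      · rintro ⟨h1, h2⟩
        have hrP := Nat.prime_iff_prime_int.1 hr
        have h4 : (r : ℤ) ∣ (f.2.1 - l) * (f.2.1 + l) := by
          have e : (f.2.1 - l) * (f.2.1 + (l : ℤ)) = 4 * f.1 * f.2.2 := by
            linear_combination hd
          rw [e]
          exact Dvd.dvd.mul_right (Dvd.dvd.mul_left h1 4) _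
        rcases hrP.dvd_or_dvd h4 with h5 | h5
        · exact Or.inl ⟨⟨h1, h2⟩, h5⟩
        · exact Or.inr ⟨⟨h1, h2⟩, h5⟩
      · rintro (⟨h1, -⟩ | ⟨h1, -⟩) <;> exact h1
    · rintro f ⟨-, h1⟩ ⟨-, h2⟩
      simp only at h2
      apply ndvd hr hl hlr
      apply two_dvd_of hr hr2
      have e : 2 * (l : ℤ) = -((f.2.1 - l) + (-f.2.1 - l)) := by ring
      rw [e, dvd_neg]
      exact h1.add h2

end

end Pool.Agent.N974.RQ
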