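import Pool.Agent.N974.GN.DualF
import Pool.Agent.N974.PG.GnE
import Pool.Agent.N969.RQ.Defs3

/-!
# Project RQ: from the dual sums to the rank form of the conjecture (levels `21` and `15`)
-/

set_option autoImplicit false

open Finset

namespace Pool.Agent.N974.RQ

open Pool.Agent.N969.P15 (un)
open Pool.Agent.N969.P17G (chP gn gen)
open Pool.Agent.N969.RQ
open Pool.Agent.N974.Gen
open Pool.Agent.N974.GN
open Pool.Agent.Y687 (RankBSD)

noncomputable section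

variable {q r l A : ℕ}

/-- the squarefree integer of the field of discriminant `A` -/
def mA (A : ℕ) : ℕ := if 2 ∣ A then A / 4 else A

theorem gn_prime (hl : l.Prime) (f : ℤ × ℤ × ℤ) : gn l f = gen l f := by
  unfold gn
  rw [hl.primeFactors, Finset.prod_singleton]

theorem Fl_eq (hl : l.Prime) (x M : ℤ) : Fl q r l x M = Fm q r l x M := by
  classical
  unfold Fl Fm
  apply finsum_congr
  intro f
  rw [gn_prime hl]
  have h : (f.2.1 ^ 2 - 4 * f.1 * f.2.2 = (l : ℤ) ^ 2 ∧ ((q * r : ℕ) : ℤ) ∣ f.1 ∧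
    (((q : ℤ) ∣ f.2.1 - l ∧ (r : ℤ) ∣ f.2.1 + l) ∨ ((q : ℤ) ∣ f.2.1 + l ∧ (r : ℤ) ∣ f.2.1 - l)) ∧
    0 < f.1 ∧ f.1 * x ^ 2 + f.2.1 * x * M + f.2.2 * M ^ 2 < 0) ↔ (SM q r l f ∧
    0 < f.1 ∧ f.1 * x ^ 2 + f.2.1 * x * M + f.2.2 * M ^ 2 < 0) := by
    unfold SM
    tauto
  by_cases h1 : SM q r l f ∧ 0 < f.1 ∧ f.1 * x ^ 2 + f.2.1 * x * M + f.2.2 * M ^ 2 < 0
  · rw [if_pos h1, if_pos (h.2 h1)]
  · rw [if_neg h1, if_neg (fun h2 => h1 (h.1 h2))]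

theorem Flr_eq (hl : l.Prime) (x M : ℤ) : Flr q r l x M = Fr q r l x M := by
  classical
  unfold Flr Fr
  apply finsum_congr
  intro f
  rw [gn_prime hl]
  have h : (f.2.1 ^ 2 - 4 * f.1 * f.2.2 = (l : ℤ) ^ 2 ∧ (r : ℤ) ∣ f.1 ∧ ¬ (q : ℤ) ∣ f.1 ∧
    0 < f.1 ∧ f.1 * x ^ 2 + f.2.1 * x * M + f.2.2 * M ^ 2 < 0) ↔ (SR q r l f ∧
    0 < f.1 ∧ f.1 * x ^ 2 + f.2.1 * x * M + f.2.2 * M ^ 2 < 0) := by
    unfold SR
    tauto
  by_cases h1 : SR q r l f ∧ 0 < f.1 ∧ f.1 * x ^ 2 + f.2.1 * x * M + f.2.2 * M ^ 2 < 0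
  · rw [if_pos h1, if_pos (h.2 h1)]
  · rw [if_neg h1, if_neg (fun h2 => h1 (h.1 h2))]

/-! ### the characters -/

theorem chP_odd (hsq : Squarefree A) (h2 : ¬ 2 ∣ A) (u : ℤ) : chP A u = jacobiSym u A := by
  unfold chP
  rw [if_neg h2, one_mul, Finset.erase_eq_of_notMem (fun h => h2 (Nat.dvd_of_mem_primeFactors h)),
    Pool.Agent.N975.PG.jac_prod u hsq]

theorem ev_of (h : Fd A) (h2 : 2 ∣ A) : ChP.Ev A := by
  rcases h.2 with ⟨-, h3⟩ | ⟨M, h3, h4, h5⟩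
  · omega
  · exact ⟨M, h3, h4, h5.symm⟩

theorem odd_of (h : Fd A) (h2 : ¬ 2 ∣ A) : Squarefree A ∧ A % 4 = 1 := by
  rcases h.2 with h3 | ⟨M, h3, -⟩
  · exact h3
  · omega

theorem sum_odd (hA : Fd A) (h2 : ¬ 2 ∣ A) {F : ℕ → ℤ} (h : ∑ u ∈ un A, chP A u * F u ≠ 0) :
    ∑ u ∈ un A, jacobiSym u A * F u ≠ 0 := by
  have e : ∑ u ∈ un A, jacobiSym u A * F u = ∑ u ∈ un A, chP A u * F u :=
    Finset.sum_congr rfl fun u _ => by rw [chP_odd (odd_of hA h2).1 h2]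
  rw [e]
  exact h

theorem sum_even (hA : Fd A) (h2 : 2 ∣ A) {F : ℕ → ℤ} (h : ∑ u ∈ un A, chP A u * F u ≠ 0) :
    ∑ u ∈ un A, ChP.chE A u * F u ≠ 0 := by
  have e : ∑ u ∈ un A, ChP.chE A u * F u = ∑ u ∈ un A, chP A u * F u :=
    Finset.sum_congr rfl fun u _ => by rw [Pool.Agent.N974.PG.chP_eq (ev_of hA h2)]
  rw [e]
  exact h

/-! ### level 21 -/

/-- **level `21`, `A` prime to the level** -/
theorem bsd21 (hN : q * r = 21) (X : Aux q r l) (hl : l.Prime) (hA : Fd A) (hqA : ¬ q ∣ A)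
    (hrA : ¬ r ∣ A) (hne : ∑ u ∈ un A, chP A u * Fl q r l u A ≠ 0)
    (hfin : Pool.Agent.N975.S21.FinPts (mA A : ℤ)) :
    RankBSD (-5211 * (mA A : ℤ) ^ 2) (-31050 * (mA A : ℤ) ^ 3) := by
  simp only [Fl_eq hl] at hne
  by_cases h2 : 2 ∣ A
  · have e : mA A = A / 4 := by unfold mA; rw [if_pos h2]
    rw [e] at hfin ⊢
    exact m21_E hN X (ev_of hA h2) hqA hrA (sum_even hA h2 hne) hfin
  · have e : mA A = A := by unfold mA; rw [if_neg h2]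
    rw [e] at hfin ⊢
    obtain ⟨h3, h4⟩ := odd_of hA h2
    exact m21_O hN X h3 h4 hA.1 hqA hrA (sum_odd hA h2 hne) hfin

/-- **level `21`, `q ∣ A`** -/
theorem bsd21r (hN : q * r = 21) (X : Aux q r l) (hl : l.Prime) (hA : Fd A) (hqA : q ∣ A)
    (hrA : ¬ r ∣ A) (hne : ∑ u ∈ un A, chP A u * Flr q r l u A ≠ 0)
    (hfin : Pool.Agent.N975.S21.FinPts (mA A : ℤ)) :
    RankBSD (-5211 * (mA A : ℤ) ^ 2) (-31050 * (mA A : ℤ) ^ 3) := by
  simp only [Flr_eq hl] at hne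
  by_cases h2 : 2 ∣ A
  · have e : mA A = A / 4 := by unfold mA; rw [if_pos h2]
    rw [e] at hfin ⊢
    exact r21_E hN X (ev_of hA h2) hqA hrA (sum_even hA h2 hne) hfin
  · have e : mA A = A := by unfold mA; rw [if_neg h2]
    rw [e] at hfin ⊢
    obtain ⟨h3, h4⟩ := odd_of hA h2
    exact r21_O hN X h3 h4 hA.1 hqA hrA (sum_odd hA h2 hne) hfin

/-! ### level 15 -/

/-- **level `15`, `A` prime to the level** -/
theorem bsd15 (hN : q * r = 15) (X : Aux q r l) (hl : l.Prime) (hA : Fd A) (hqA : ¬ q ∣ A)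
    (hrA : ¬ r ∣ A) (hne : ∑ u ∈ un A, chP A u * Fl q r l u A ≠ 0)
    (hfin : Fin15 (mA A : ℤ)) :
    RankBSD (-12987 * (mA A : ℤ) ^ 2) (-263466 * (mA A : ℤ) ^ 3) := by
  simp only [Fl_eq hl] at hne
  by_cases h2 : 2 ∣ A
  · have e : mA A = A / 4 := by unfold mA; rw [if_pos h2]
    rw [e] at hfin ⊢
    exact m15_E hN X (ev_of hA h2) hqA hrA (sum_even hA h2 hne) hfin
  · have e : mA A = A := by unfold mA; rw [if_neg h2]
    rw [e] at hfin ⊢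
    obtain ⟨h3, h4⟩ := odd_of hA h2
    exact m15_O hN X h3 h4 hA.1 hqA hrA (sum_odd hA h2 hne) hfin

/-- **level `15`, `q ∣ A`** -/
theorem bsd15r (hN : q * r = 15) (X : Aux q r l) (hl : l.Prime) (hA : Fd A) (hqA : q ∣ A)
    (hrA : ¬ r ∣ A) (hne : ∑ u ∈ un A, chP A u * Flr q r l u A ≠ 0)
    (hfin : Fin15 (mA A : ℤ)) :
    RankBSD (-12987 * (mA A : ℤ) ^ 2) (-263466 * (mA A : ℤ) ^ 3) := by
  simp only [Flr_eq hl] at hne
  by_cases h2 : 2 ∣ A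
  · have e : mA A = A / 4 := by unfold mA; rw [if_pos h2]
    rw [e] at hfin ⊢
    exact r15_E hN X (ev_of hA h2) hqA hrA (sum_even hA h2 hne) hfin
  · have e : mA A = A := by unfold mA; rw [if_neg h2]
    rw [e] at hfin ⊢
    obtain ⟨h3, h4⟩ := odd_of hA h2
    exact r15_O hN X h3 h4 hA.1 hqA hrA (sum_odd hA h2 hne) hfin

/-! ### from the crossing numbers -/

theorem aux21 (hl : l.Prime) (h : Pool.Agent.N877.P21.Cls0 l) : Aux 7 3 l := by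
  have h3 := h
  unfold Pool.Agent.N877.P21.Cls0 Pool.Agent.N877.P21.Sp7 at h3
  refine ⟨hl.squarefree, ?_, by norm_num, by norm_num, by norm_num, by norm_num, by norm_num,
    ?_, ?_⟩ <;> omega

theorem aux15 (hl : l.Prime) (h : Pool.Agent.N969.P15.Cls0 l) : Aux 3 5 l := by
  have h3 := h
  unfold Pool.Agent.N969.P15.Cls0 at h3
  refine ⟨hl.squarefree, ?_, by norm_num, by norm_num, by norm_num, by norm_num, by norm_num,
    ?_, ?_⟩ <;> omega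

theorem mod3 (h : A % 3 = 1) : ¬ 3 ∣ A := by omega

theorem not_dvd {p : ℕ} (hp : p.Prime) (h : jacobiSym A p = 1) : ¬ p ∣ A := by
  intro h1
  have : NeZero p := ⟨hp.ne_zero⟩
  have h2 : jacobiSym (A : ℤ) p = 0 := by
    rw [jacobiSym.eq_zero_iff_not_coprime, Int.gcd_natCast_natCast]
    intro h3
    exact hp.one_lt.ne' (Nat.eq_one_of_dvd_coprimes h3 h1 dvd_rfl)
  rw [h2] at h
  norm_num at h

/-- **level `21`: the rank form of the conjecture from the crossing number at `1 / 3`** -/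
theorem rank21 (hNV : S_NV21) (hA : R21 A ∨ R21r A) (hJ : J 21 o3 A 1 1 3 ≠ 0)
    (hfin : Pool.Agent.N975.S21.FinPts (mA A : ℤ)) :
    RankBSD (-5211 * (mA A : ℤ) ^ 2) (-31050 * (mA A : ℤ) ^ 3) := by
  obtain ⟨l, hl, hc, -, h1, h2⟩ := hNV A hJ
  have X := aux21 hl hc
  rcases hA with h | h
  · exact bsd21 (by norm_num) X hl h.1 (not_dvd (by norm_num) h.2.2) (mod3 h.2.1) (h1 h) hfin
  · exact bsd21r (by norm_num) X hl h.1 h.2.2 (mod3 h.2.1) (h2 h) hfin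

/-- **level `15`: the rank form of the conjecture from the crossing number at `1 / 3`** -/
theorem rank15 (hNV : S_NV15) (hA : R15 A ∨ R15r A) (hJ : J 15 o5 A 1 1 3 ≠ 0)
    (hfin : Fin15 (mA A : ℤ)) :
    RankBSD (-12987 * (mA A : ℤ) ^ 2) (-263466 * (mA A : ℤ) ^ 3) := by
  obtain ⟨l, hl, hc, -, h1, h2⟩ := hNV A hJ
  have X := aux15 hl hc
  rcases hA with h | h
  · exact bsd15 (by norm_num) X hl h.1 (mod3 h.2.1) (not_dvd (by norm_num) h.2.2) (h1 h) hfin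
  · exact bsd15r (by norm_num) X hl h.1 h.2.1 (not_dvd (by norm_num) h.2.2) (h2 h) hfin

end

end Pool.Agent.N974.RQ
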